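import Pool.Agent.Q49.GD.Basic

/-!
# The motivic Galois group and GT: depth and generators

Let `g = grt_1` be the graded Grothendieck-Teichmueller Lie algebra, the graded Lie algebra of the unipotent
radical of `GT` (graded by the action of the multiplicative group), `g_w` its part of weight `w`, and
`D² g` the subspace of the elements of depth at least two (all words of which have at least two letters
`x_1`). Let `f = L^mot` be the Lie algebra of the unipotent radical of the motivic Galois group, a graded Lie
subalgebra of `g`. Question Q1 asks whether `f = g`.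

The following facts are known and are used as hypotheses (`IsDepth` with `hfin`, `he`): the bracket is additive
for the weights and brackets have depth at least two; the elements of depth at least two of weight `w` have
codimension `e w` in `g_w`, where `e w = 1` for odd `w ≥ 3` and `e w = 0` otherwise; `f` is
generated by one element `σ_w` of depth one in each odd weight `w ≥ 3` (Drinfeld, Deligne, Goncharov,
Brown), so that `f` contains the depth one part and the elements of `f` of depth at least two are in
`[f, f]`.

**Theorem.**

1. Equivalent: (a) question Q1, the equality `f = g`; (b) `D² g = [g, g]`, that is, every element of depth at least two is a sum of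
   brackets; (c) the abelianization of `g` has dimension one in the odd weights `≥ 3` and zero in
   the other weights; (d) for one choice, or for every choice, of a homogeneous element of depth one in each
   odd weight `≥ 3`, these elements generate the Lie algebra `g`.
2. The same equivalences hold for the parts of weights at most `n`, for each `n`. In particular, the
   smallest weight `n` with `f_n ≠ g_n`, if there is one, is the smallest weight in which there is an
   element of depth at least two which is not a sum of brackets.
-/

set_option autoImplicit false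

universe u

namespace Pool.Agent.Results.MP_446dfa_ag.DepthAndGenerators

open Pool.Agent.Q49.GD

variable {L : Type u} [LieRing L] [LieAlgebra ℚ L]

/-- The codimension of the elements of depth at least two. -/
def e (w : ℕ) : ℕ := if 3 ≤ w ∧ Odd w then 1 else 0

/-- Complements of the elements of depth at least two: `S w` is spanned by a homogeneous element of depth one if
`w ≥ 3` is odd, and is zero otherwise. -/
def Complement (G D S : ℕ → Submodule ℚ L) : Prop :=
  ∀ w, S w ≤ G w ∧ G w ≤ S w ⊔ D w ∧ S w ⊓ D w = ⊥

/-- **The motivic Galois group and GT: depth and generators.** `G w`: the part of weight `w` of `g`; `D w`: its elements of depth at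
least two; `F w`: the part of weight `w` of `f`; `Br G w`: the part of weight `w` of the derived algebra;
`Gen S w`: the part of weight `w` of the Lie algebra generated by the `S i`. -/
theorem result {G D F : ℕ → Submodule ℚ L} (h : IsDepth G D F)
    (hfin : ∀ w, Module.Finite ℚ (G w))
    (he : ∀ w, Module.finrank ℚ (G w) = Module.finrank ℚ (D w) + e w) :
    (∀ n, List.TFAE [
      ∀ w ≤ n, F w = G w,
      ∀ w ≤ n, Module.finrank ℚ (F w) = Module.finrank ℚ (G w),
      ∀ w ≤ n, D w = Br G w,
      ∀ w ≤ n, Module.finrank ℚ (G w) = Module.finrank ℚ (Br G w) + e w,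
      ∃ S, Complement G D S ∧ ∀ w ≤ n, G w = Gen S w,
      ∀ S, Complement G D S → ∀ w ≤ n, G w = Gen S w]) ∧
    List.TFAE [
      ∀ w, F w = G w,
      ∀ w, Module.finrank ℚ (F w) = Module.finrank ℚ (G w),
      ∀ w, D w = Br G w,
      ∀ w, Module.finrank ℚ (G w) = Module.finrank ℚ (Br G w) + e w,
      ∃ S, Complement G D S ∧ ∀ w, G w = Gen S w,
      ∀ S, Complement G D S → ∀ w, G w = Gen S w] ∧
    (∀ n, F n ≠ G n → (∀ w < n, F w = G w) → D n ≠ Br G n ∧ ∀ w < n, D w = Br G w) := by
  have hc : ∃ S, Complement G D S := by
    have h1 : ∀ w, ∃ T : Submodule ℚ L, T ≤ G w ∧ G w ≤ T ⊔ D w ∧ T ⊓ D w = ⊥ := by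
      intro w
      obtain ⟨C, hC⟩ := Submodule.exists_isCompl (D w)
      refine ⟨C ⊓ G w, inf_le_right, fun x hx => ?_, ?_⟩
      · have h2 : x ∈ C ⊔ D w := by rw [hC.symm.sup_eq_top]; trivial
        obtain ⟨c, hc, d, hd, rfl⟩ := Submodule.mem_sup.mp h2
        refine Submodule.add_mem_sup ⟨hc, ?_⟩ hd
        have := (G w).sub_mem hx (h.D_le w hd)
        simpa using this
      · rw [eq_bot_iff]
        exact (inf_le_inf_right _ inf_le_left).trans hC.symm.inf_eq_bot.le
    choose T hT using h1
    exact ⟨T, hT⟩
  have key : ∀ n, List.TFAE [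
      ∀ w ≤ n, F w = G w,
      ∀ w ≤ n, Module.finrank ℚ (F w) = Module.finrank ℚ (G w),
      ∀ w ≤ n, D w = Br G w,
      ∀ w ≤ n, Module.finrank ℚ (G w) = Module.finrank ℚ (Br G w) + e w,
      ∃ S, Complement G D S ∧ ∀ w ≤ n, G w = Gen S w,
      ∀ S, Complement G D S → ∀ w ≤ n, G w = Gen S w] := by
    intro n
    tfae_have 1 ↔ 2 := by
      refine forall_congr' fun w => imp_congr_right fun _ => ⟨fun h1 => by rw [h1], fun h1 => ?_⟩
      have := hfin w
      exact Submodule.eq_of_le_of_finrank_eq (h.F_le w) h1
    tfae_have 1 ↔ 3 := eq_iff_derived h n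
    tfae_have 3 ↔ 4 :=
      forall_congr' fun w => imp_congr_right fun _ => derived_iff_dim h hfin he w
    tfae_have 3 → 6 := fun h3 S hS =>
      (derived_iff_gen h (fun w => (hS w).1) (fun w => (hS w).2.1) (fun w => (hS w).2.2) n).mp h3
    tfae_have 6 → 5 := by
      intro h6
      obtain ⟨S, hS⟩ := hc
      exact ⟨S, hS, h6 S hS⟩
    tfae_have 5 → 3 := by
      rintro ⟨S, hS, h5⟩
      exact (derived_iff_gen h (fun w => (hS w).1) (fun w => (hS w).2.1)
        (fun w => (hS w).2.2) n).mpr h5
    tfae_finish
  have all : ∀ {P : ℕ → Prop}, (∀ w, P w) ↔ ∀ n, ∀ w ≤ n, P w := fun {P} =>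
    ⟨fun h1 n w _ => h1 w, fun h1 w => h1 w w le_rfl⟩
  refine ⟨key, ?_, fun n h1 h2 => ?_⟩
  · tfae_have 1 ↔ 2 := by
      rw [all, all (P := fun w => Module.finrank ℚ (F w) = Module.finrank ℚ (G w))]
      exact forall_congr' fun n => (key n).out 0 1
    tfae_have 1 ↔ 3 := by
      rw [all, all (P := fun w => D w = Br G w)]
      exact forall_congr' fun n => (key n).out 0 2
    tfae_have 3 ↔ 4 := by
      rw [all, all (P := fun w => Module.finrank ℚ (G w) = Module.finrank ℚ (Br G w) + e w)]
      exact forall_congr' fun n => (key n).out 2 3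
    tfae_have 3 → 6 := by
      intro h3 S hS w
      exact (derived_iff_gen h (fun w => (hS w).1) (fun w => (hS w).2.1)
        (fun w => (hS w).2.2) w).mp (fun v _ => h3 v) w le_rfl
    tfae_have 6 → 5 := by
      intro h6
      obtain ⟨S, hS⟩ := hc
      exact ⟨S, hS, h6 S hS⟩
    tfae_have 5 → 3 := by
      rintro ⟨S, hS, h5⟩ w
      exact (derived_iff_gen h (fun w => (hS w).1) (fun w => (hS w).2.1)
        (fun w => (hS w).2.2) w).mpr (fun v _ => h5 v) w le_rfl
    tfae_finish
  · have h3 : ∀ w < n, D w = Br G w := by
      intro w hw
      exact (eq_iff_derived h w).mp (fun v hv => h2 v (by omega)) w le_rfl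
    refine ⟨fun h4 => h1 ?_, h3⟩
    refine (eq_iff_derived h n).mpr (fun w hw => ?_) n le_rfl
    rcases Nat.lt_or_ge w n with h5 | h5
    · exact h3 w h5
    · obtain rfl : w = n := by omega
      exact h4

end Pool.Agent.Results.MP_446dfa_ag.DepthAndGenerators
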