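import Pool.Agent.Q49.GD.Basic
import Pool.Agent.Q49.GD.ZeroOne

/-!
# The motivic Galois group and GT: a zero-one law

Let `g = grt_1` be the graded Grothendieck-Teichmueller Lie algebra, the graded Lie algebra of the unipotent
radical of `GT`, and `f = L^mot` the Lie algebra of the unipotent radical of the motivic Galois group, a graded
Lie subalgebra of `g` which is free on one generator in each odd weight `≥ 3`. Question Q1 asks whether
`f = g`. Let `g_w`, `f_w` be the parts of weight `w` (`G w`, `F w`). By the theorem of Poincare, Birkhoff and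
Witt the Hilbert series of the enveloping algebras are

`∑ U_w x^w = ∏ (1 - x^i)^(-dim g_i)` and `∑ c_w x^w = ∏ (1 - x^i)^(-dim f_i) = 1 / (1 - x^3 - x^5 - ...)`.

`U_w` is also the dimension of the part of weight `w` of the ring of functions on the unipotent radical of `GT`,
and `c_w` is that for the motivic Galois group.

**Theorem.**

1. If `f_n ≠ g_n` for one weight `n ≥ 1`, then `U_w ≥ c_w + U_{w-n}` for all `w ≥ n`, and
   `U_w ≥ c_w + c_{w-n} + c_{w-2n} + ... + c_{w-jn}` if `jn ≤ w`.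
2. If Q1 fails and `n` is the smallest weight with `f_n ≠ g_n`, then `U_w = c_w` for `w < n`, and
   `U_w > c_w` for `w ≥ n`, except possibly for `w = n + 1, n + 2, n + 4`.
3. Q1 holds if and only if `U_w = c_w` for infinitely many `w`, and if and only if for every `ε > 0` there
   are infinitely many `w` with `U_w < (1 + ε) c_w`.
4. If `U_w < c_w + c_{w-n}` for one `w ≥ n`, then `f_n = g_n`.
-/

set_option autoImplicit false

universe u

open Filter Finset

namespace Pool.Agent.Results.MP_446dfa_ag.ZeroOneLaw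

open Pool.Agent.Q263.ZO

variable {L : Type u} [AddCommGroup L] [Module ℚ L]

/-- the dimensions of the parts of weight `w` -/
noncomputable def dims (G : ℕ → Submodule ℚ L) (w : ℕ) : ℕ := Module.finrank ℚ (G w)

/-- the Hilbert series of the enveloping algebra -/
noncomputable def U (G : ℕ → Submodule ℚ L) (w : ℕ) : ℕ := HS.u (dims G) w

/-- **A zero-one law for the equality of the motivic Galois group and GT.** See the explanations above.
`HS.u l w` is the coefficient of `x^w` in `∏_{1 ≤ i ≤ w} (1 - x^i)^(-l i)`, and `HS.c w` is `c_w`; the hypothesis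
`free` is the equality of the Hilbert series for the free Lie algebra `f`. -/
theorem result (G F : ℕ → Submodule ℚ L) (hfin : ∀ w, Module.Finite ℚ (G w))
    (hle : ∀ w, F w ≤ G w) (free : ∀ w, U F w = HS.c w) :
    (HS.c 0 = 1 ∧ ∀ w, 1 ≤ w → HS.c w = ∑ k ∈ (Icc 3 w).filter Odd, HS.c (w - k)) ∧
    (∀ n, 1 ≤ n → F n ≠ G n → ∀ w, n ≤ w → HS.c w + U G (w - n) ≤ U G w) ∧
    (∀ n, 1 ≤ n → F n ≠ G n → ∀ w j, j * n ≤ w →
      ∑ k ∈ range (j + 1), HS.c (w - k * n) ≤ U G w) ∧
    ((∀ w, 1 ≤ w → F w = G w) ∨ ∃ n, 1 ≤ n ∧ F n ≠ G n ∧ (∀ w < n, U G w = HS.c w) ∧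
      ∀ w, n ≤ w → w ≠ n + 1 → w ≠ n + 2 → w ≠ n + 4 → HS.c w < U G w) ∧
    ((∀ w, 1 ≤ w → F w = G w) ↔ ∃ᶠ w in atTop, U G w = HS.c w) ∧
    ((∀ w, 1 ≤ w → F w = G w) ↔
      ∀ ε : ℝ, 0 < ε → ∃ᶠ w in atTop, (U G w : ℝ) < (1 + ε) * HS.c w) ∧
    (∀ n w, 1 ≤ n → n ≤ w → U G w < HS.c w + HS.c (w - n) → F n = G n) := by
  have h1 : ∀ w, F w = G w ↔ dims G w = dims F w := by
    intro w
    refine ⟨fun h => by unfold dims; rw [h], fun h => ?_⟩
    have := hfin w
    exact Submodule.eq_of_le_of_finrank_eq (hle w) h.symm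
  have h2 : ∀ w, 1 ≤ w → dims F w ≤ dims G w := fun w _ => by
    have := hfin w
    exact Submodule.finrank_mono (hle w)
  simp only [ne_eq, h1]
  exact Pool.Agent.Q49.GD.ZeroOne.law (dims G) (dims F) free h2

end Pool.Agent.Results.MP_446dfa_ag.ZeroOneLaw
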